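import Pool.Agent.Helper33_F5H.Mea

/-!
MP_f5cbfa_nt, squad F5H, block C, row INT: Tonelli over the forms and reindexing by a permutation.
-/

set_option autoImplicit false

open MeasureTheory Complex ComplexConjugate

namespace Pool.Agent.F5H.BC.H33

open Pool.Agent.BTL Pool.Agent.F5S Pool.Agent.F5H

/-- components of an integer triple -/
def c3 (t : Z6) : Fin 3 → ℤ × ℤ := ![t.1, t.2.1, t.2.2]

/-- permutation of the components of an integer triple -/
def pz (p : Equiv.Perm (Fin 3)) (t : Z6) : Z6 := (c3 t (p 0), c3 t (p 1), c3 t (p 2))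

theorem cp_r3 (t : Z6) (i : Fin 3) : cp (r3 t) i = rc (c3 t i) := by
  fin_cases i <;> rfl

theorem c3_pz (p : Equiv.Perm (Fin 3)) (t : Z6) (i : Fin 3) : c3 (pz p t) i = c3 t (p i) := by
  fin_cases i <;> rfl

theorem r3_pz (p : Equiv.Perm (Fin 3)) (t : Z6) : r3 (pz p t) = pm p (r3 t) := by
  change (rc (c3 t (p 0)), rc (c3 t (p 1)), rc (c3 t (p 2)))
    = (cp (r3 t) (p 0), cp (r3 t) (p 1), cp (r3 t) (p 2))
  rw [cp_r3, cp_r3, cp_r3]

theorem pz_pz (p q : Equiv.Perm (Fin 3)) (t : Z6) (h : ∀ i, q (p i) = i) :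
    pz p (pz q t) = t := by
  have h1 : ∀ i, c3 (pz q t) (p i) = c3 t i := fun i => by rw [c3_pz, h]
  change (c3 (pz q t) (p 0), c3 (pz q t) (p 1), c3 (pz q t) (p 2)) = t
  rw [h1, h1, h1]
  rfl

/-- the permutation as an equivalence -/
def pzE (p : Equiv.Perm (Fin 3)) : Z6 ≃ Z6 where
  toFun := pz p
  invFun := pz p.symm
  left_inv t := pz_pz p.symm p t fun i => p.apply_symm_apply i
  right_inv t := pz_pz p p.symm t fun i => p.symm_apply_apply i

theorem pz_zero (p : Equiv.Perm (Fin 3)) : pz p 0 = 0 := by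
  have h1 : ∀ i, c3 0 i = 0 := by
    intro i
    fin_cases i <;> rfl
  change (c3 0 (p 0), c3 0 (p 1), c3 0 (p 2)) = 0
  rw [h1, h1, h1]
  rfl

theorem pz_eq_zero (p : Equiv.Perm (Fin 3)) (k : Z6) : pz p k = 0 ↔ k = 0 :=
  (pzE p).injective.eq_iff' (pz_zero p)

theorem vol_KM {Q : ℝ} (hQ : 1 ≤ Q) : volume (KM Q) ≤ ENNReal.ofReal ((2 * Q) ^ 3) := by
  have hsub : KM Q ⊆ Set.Icc (-Q) Q ×ˢ (Set.Icc (-Q) Q ×ˢ Set.Icc (-Q) Q) := by
    intro A hA
    have h := KM_abs_le hQ hA
    simp only [Prod.norm_def, Real.norm_eq_abs, sup_le_iff] at h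
    obtain ⟨h1, h2, h3⟩ := h
    exact ⟨abs_le.mp h1, abs_le.mp h2, abs_le.mp h3⟩
  refine (measure_mono hsub).trans ?_
  rw [Measure.volume_eq_prod, Measure.prod_prod, Measure.volume_eq_prod, Measure.prod_prod,
    Real.volume_Icc, ← ENNReal.ofReal_mul (by linarith), ← ENNReal.ofReal_mul (by linarith)]
  exact ENNReal.ofReal_le_ofReal (le_of_eq (by ring))

theorem int_of (mea : MEAStmt) : INTStmt := by
  classical
  intro T Q V k0 del W s p hQ hK H
  -- the sections
  let G : Z6 → Z6 → ℝ × ℝ × ℝ → ENNReal := fun h k A =>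
    volume (Prod.mk A ⁻¹' Tgt T Q V k0 del s (r3 h) (r3 k))
  have hGm : ∀ h k, Measurable (G h k) := fun h k =>
    measurable_measure_prodMk_left (mea T Q V k0 del s (r3 h) (r3 k))
  have hvol : ∀ h k : Z6, volume (Tgt T Q V k0 del s (pm p (r3 h)) (pm p (r3 k)))
      = ∫⁻ A, G (pz p h) (pz p k) A := by
    intro h k
    rw [← r3_pz, ← r3_pz, Measure.volume_eq_prod, Measure.prod_apply (mea T Q V k0 del s _ _)]
  have hsec : ∀ A, ∑' h : Z6, ∑' k : Z6, (if k = 0 then 0 else G h k A)
      ≤ (KM Q).indicator (fun _ => ENNReal.ofReal W) A := by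
    intro A
    by_cases hA : A ∈ KM Q
    · rw [Set.indicator_of_mem hA]
      refine le_trans ?_ (hK A hA)
      refine ENNReal.tsum_le_tsum fun h => ENNReal.tsum_le_tsum fun k => ?_
      split_ifs with hk
      · exact le_refl _
      · refine measure_mono fun th hth => ?_
        exact hth.2
    · rw [Set.indicator_of_notMem hA]
      refine le_of_eq ?_
      have h1 : ∀ h k, G h k A = 0 := by
        intro h k
        have h2 : Prod.mk A ⁻¹' Tgt T Q V k0 del s (r3 h) (r3 k) = ∅ := by
          ext th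
          simp only [Set.mem_preimage, Set.mem_empty_iff_false, iff_false]
          exact fun hth => hA hth.1
        simp only [G]
        rw [h2, measure_empty]
      simp only [h1, ite_self, tsum_zero]
  calc ∑ h ∈ H, ∑' k : Z6, (if k = 0 then 0 else
          volume (Tgt T Q V k0 del s (pm p (r3 h)) (pm p (r3 k))))
      ≤ ∑' h : Z6, ∑' k : Z6, (if k = 0 then 0 else
          volume (Tgt T Q V k0 del s (pm p (r3 h)) (pm p (r3 k)))) := ENNReal.sum_le_tsum H
    _ = ∑' h : Z6, ∑' k : Z6, ∫⁻ A, (if pz p k = 0 then 0 else G (pz p h) (pz p k) A) := by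
        refine tsum_congr fun h => tsum_congr fun k => ?_
        by_cases hk : k = 0
        · rw [if_pos hk]
          simp only [(pz_eq_zero p k).mpr hk, if_true, lintegral_zero]
        · rw [if_neg hk, hvol]
          have hk' : pz p k ≠ 0 := fun h1 => hk ((pz_eq_zero p k).mp h1)
          simp only [if_neg hk']
    _ = ∑' h : Z6, ∑' k : Z6, ∫⁻ A, (if k = 0 then 0 else G h k A) := by
        rw [← (pzE p).tsum_eq (fun h => ∑' k : Z6, ∫⁻ A, (if k = 0 then 0 else G h k A))]
        refine tsum_congr fun h => ?_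
        rw [← (pzE p).tsum_eq (fun k => ∫⁻ A, (if k = 0 then 0 else G (pzE p h) k A))]
        rfl
    _ = ∫⁻ A, ∑' h : Z6, ∑' k : Z6, (if k = 0 then 0 else G h k A) := by
        have hm : ∀ h k, Measurable fun A => (if k = 0 then 0 else G h k A) := by
          intro h k
          by_cases hk : k = 0
          · simp only [if_pos hk]; exact measurable_const
          · simp only [if_neg hk]; exact hGm h k
        rw [lintegral_tsum fun h => (Measurable.tsum fun k => hm h k).aemeasurable]
        refine tsum_congr fun h => ?_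
        rw [lintegral_tsum fun k => (hm h k).aemeasurable]
    _ ≤ ∫⁻ A, (KM Q).indicator (fun _ => ENNReal.ofReal W) A := lintegral_mono hsec
    _ = ENNReal.ofReal W * volume (KM Q) := by
        rw [lintegral_indicator (measurableSet_KM Q), setLIntegral_const]
    _ ≤ ENNReal.ofReal W * ENNReal.ofReal ((2 * Q) ^ 3) := by
        gcongr
        exact vol_KM hQ
    _ = ENNReal.ofReal ((2 * Q) ^ 3 * W) := by
        rw [mul_comm, ← ENNReal.ofReal_mul (by positivity)]

theorem int : INTStmt := int_of mea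

end Pool.Agent.F5H.BC.H33
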