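import Pool.Agent.F5H.StmtsD

/-!
MP_f5cbfa_nt, squad F5H, block C, row MEA: the target of the averaging is measurable.
-/

set_option autoImplicit false

open MeasureTheory Complex ComplexConjugate

namespace Pool.Agent.F5H.BC.H33

open Pool.Agent.BTL Pool.Agent.F5S Pool.Agent.F5H

section

variable {α : Type} [MeasurableSpace α]

theorem meas_cx {f g : α → ℝ} (hf : Measurable f) (hg : Measurable g) :
    Measurable fun a => (⟨f a, g a⟩ : ℂ) := by
  have h1 : (fun a => (⟨f a, g a⟩ : ℂ)) = fun a => (f a : ℂ) + (g a : ℂ) * I := by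
    funext a
    apply Complex.ext <;> simp
  rw [h1]
  exact (Complex.measurable_ofReal.comp hf).add
    ((Complex.measurable_ofReal.comp hg).mul measurable_const)

theorem meas_gA {A : α → ℝ × ℝ × ℝ} (hA : Measurable A) (x : ℝ × ℝ) :
    Measurable fun a => gA (A a) x := by
  unfold gA disc
  apply meas_cx <;> fun_prop

theorem meas_kA {A : α → ℝ × ℝ × ℝ} (hA : Measurable A) (x : ℝ × ℝ) :
    Measurable fun a => kA (A a) x := by
  unfold kA disc
  apply meas_cx <;> fun_prop

theorem meas_re {f : α → ℂ} (hf : Measurable f) : Measurable fun a => (f a).re :=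
  Complex.measurable_re.comp hf

theorem meas_im {f : α → ℂ} (hf : Measurable f) : Measurable fun a => (f a).im :=
  Complex.measurable_im.comp hf

theorem meas_conj {f : α → ℂ} (hf : Measurable f) : Measurable fun a => conj (f a) :=
  Complex.continuous_conj.measurable.comp hf

theorem meas_of {f : α → ℝ} (hf : Measurable f) : Measurable fun a => (f a : ℂ) :=
  Complex.measurable_ofReal.comp hf

variable {H : α → Fin 3 → ℂ} (hH : ∀ l, Measurable fun a => H a l) (T : ℝ) (ep : Fin 3 → ℝ)
  {th : α → ℝ} (hth : Measurable th)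

include hH in
theorem meas_rh (l : Fin 3) : Measurable fun a => rh T (H a l) := by
  unfold rh
  have := hH l
  fun_prop

include hth in
theorem meas_exp : Measurable fun a => cexp ((th a : ℂ) * I) :=
  Complex.measurable_exp.comp ((meas_of hth).mul measurable_const)

include hH hth in
theorem meas_wG (l : Fin 3) : Measurable fun a => wG T (H a) ep (th a) l := by
  by_cases hl : l = 2
  · simp only [wG, if_pos hl]
    exact meas_exp hth
  · simp only [wG, if_neg hl]
    have h1 : Measurable fun a => H a l := hH l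
    have h2 : Measurable fun a => H a 2 := hH 2
    have h3 := meas_rh hH T l
    have h4 := meas_rh hH T 2
    have h5 : Measurable fun a => (conj (cexp ((th a : ℂ) * I)) * H a 2).re :=
      meas_re ((meas_conj (meas_exp hth)).mul h2)
    have h6 : Measurable fun a => rh T (H a 2) / rh T (H a l) *
        (conj (cexp ((th a : ℂ) * I)) * H a 2).re / ‖H a l‖ :=
      (((h4.div h3).mul h5).div h1.norm)
    have h7 : Measurable fun a => ep l * √(1 - (rh T (H a 2) / rh T (H a l) *
        (conj (cexp ((th a : ℂ) * I)) * H a 2).re / ‖H a l‖) ^ 2) :=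
      measurable_const.mul ((measurable_const.sub (h6.pow_const 2)).sqrt)
    exact (h1.div (meas_of h1.norm)).mul ((meas_of h6).add ((meas_of h7).mul measurable_const))

include hH hth in
theorem meas_mG (l : Fin 3) : Measurable fun a => mG T (H a) ep (th a) l :=
  (meas_of (meas_rh hH T l)).mul (meas_wG hH T ep hth l)

include hH hth in
theorem meas_tG (l : Fin 3) : Measurable fun a => tG T (H a) ep (th a) l :=
  meas_re ((meas_conj (meas_wG hH T ep hth l)).mul (hH l))

include hH hth in
theorem meas_nG (l : Fin 3) : Measurable fun a => nG T (H a) ep (th a) l :=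
  meas_im ((meas_conj (meas_wG hH T ep hth l)).mul (hH l))

theorem meas_bf (B : ℝ × ℝ × ℝ) {f g : α → ℂ} (hf : Measurable f) (hg : Measurable g) :
    Measurable fun a => Helper68_F5.bf B (f a) (g a) := by
  unfold Helper68_F5.bf
  have h1 := meas_re hf
  have h2 := meas_im hf
  have h3 := meas_re hg
  have h4 := meas_im hg
  exact ((measurable_const.mul (h1.mul h3)).add
    (measurable_const.mul ((h1.mul h4).add (h2.mul h3)))).add
    (measurable_const.mul (h2.mul h4))

include hH hth in
theorem meas_muG (B : ℝ × ℝ × ℝ) (l : Fin 3) :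
    Measurable fun a => muG T (H a) ep (th a) B l := by
  unfold muG
  have h1 := meas_mG hH T ep hth l
  exact ((((meas_bf B h1 h1).add ((meas_bf B (hH l) (hH l)).div measurable_const)).div
    (measurable_const.mul (meas_rh hH T l)))).neg

include hH hth in
theorem meas_GG (B : ℝ × ℝ × ℝ) (y : ℝ) : Measurable fun a => GG T (H a) ep (th a) B y := by
  unfold GG
  exact (((meas_muG hH T ep hth B 2).mul (meas_tG hH T ep hth 2)).add
    (measurable_const.mul (meas_nG hH T ep hth 2))).add
    (meas_bf B (meas_mG hH T ep hth 2) (hH 2))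

include hH hth in
theorem meas_yG (B : ℝ × ℝ × ℝ) (y : ℝ) (l : Fin 3) :
    Measurable fun a => yG T (H a) ep (th a) B y l := by
  by_cases hl : l = 2
  · simp only [yG, if_pos hl]
    exact measurable_const
  · simp only [yG, if_neg hl]
    exact (((meas_GG hH T ep hth B y).sub (meas_bf B (meas_mG hH T ep hth l) (hH l))).sub
      ((meas_muG hH T ep hth B l).mul (meas_tG hH T ep hth l))).div (meas_nG hH T ep hth l)

include hH hth in
theorem meas_tv (B : ℝ × ℝ × ℝ) (y : ℝ) (l : Fin 3) :
    Measurable fun a => tv T (H a) ep (th a) B y l :=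
  ((meas_of (meas_muG hH T ep hth B l)).add
    ((meas_of (meas_yG hH T ep hth B y l)).mul measurable_const)).mul
    (meas_wG hH T ep hth l)

variable {K : α → Fin 3 → ℂ} (hK : ∀ l, Measurable fun a => K a l)

include hK in
theorem meas_sp {m : α → Fin 3 → ℂ} (hm : ∀ l, Measurable fun a => m a l) :
    Measurable fun a => F5.H58.sp (K a) (m a) := by
  unfold F5.H58.sp
  exact Finset.measurable_sum _ fun l _ => meas_re ((meas_conj (hK l)).mul (hm l))

include hK hH hth in
theorem meas_tan (l : Fin 3) :
    Measurable fun a => (conj (K a l) * (I * wG T (H a) ep (th a) l)).re :=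
  meas_re ((meas_conj (hK l)).mul (measurable_const.mul (meas_wG hH T ep hth l)))

include hH hth hK in
theorem meas_kph : Measurable fun a => kph T (H a) ep (th a) (K a) := by
  unfold kph
  refine Finset.measurable_sum _ fun l _ => ?_
  have h1 : Measurable fun a => ‖H a l‖ ^ 2 := (hH l).norm.pow_const 2
  have h2 : Measurable fun a => ‖H a 2‖ ^ 2 := (hH 2).norm.pow_const 2
  exact ((meas_re ((meas_conj (hK l)).mul (meas_wG hH T ep hth l))).mul h1).sub
    (((meas_tan hH T ep hth hK l).mul ((meas_tG hH T ep hth 2).div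
      (meas_nG hH T ep hth l))).mul (h1.sub h2))

include hH hth hK in
theorem meas_BD (c₁ c₂ : ℝ) (b : Fin 3 → ℝ) :
    MeasurableSet {a | BD T c₁ c₂ b (H a) ep (th a) (K a)} := by
  unfold BD
  have hs : ∀ (B : ℝ × ℝ × ℝ) (y c : ℝ),
      MeasurableSet {a | |F5.H58.sp (K a) (tv T (H a) ep (th a) B y)| ≤ c} := fun B y c =>
    measurableSet_le (meas_sp hK fun l => meas_tv hH T ep hth B y l).abs measurable_const
  have hl : MeasurableSet {a | ∀ l, |(conj (K a l) * (I * wG T (H a) ep (th a) l)).re| ≤ b l} := by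
    rw [Set.setOf_forall]
    exact MeasurableSet.iInter fun l =>
      measurableSet_le (meas_tan hH T ep hth hK l).abs measurable_const
  exact (hs _ _ _).inter ((hs _ _ _).inter ((hs _ _ _).inter ((hs _ _ _).inter
    ((hs _ _ _).inter hl))))

include hH hth in
theorem meas_Gd (Q : ℝ) : MeasurableSet {a | Gd Q T (H a) ep (th a)} := by
  unfold Gd
  have hn : ∀ l, Measurable fun a => ‖H a l‖ := fun l => (hH l).norm
  have h1 : MeasurableSet {a | ∀ l, 1 ≤ Q * ‖H a l‖ ∧ ‖H a l‖ ≤ Q * Lx T} := by
    rw [Set.setOf_forall]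
    exact MeasurableSet.iInter fun l =>
      (measurableSet_le measurable_const (measurable_const.mul (hn l))).inter
        (measurableSet_le (hn l) measurable_const)
  have h2 : MeasurableSet {a | ∀ l : Fin 3, l ≠ 2 → T ^ (677 / 2000 : ℝ) ≤ Q * ‖H a l‖} := by
    rw [Set.setOf_forall]
    refine MeasurableSet.iInter fun l => ?_
    by_cases hl : l = 2
    · simp only [hl, ne_eq, not_true_eq_false, false_imp_iff, Set.setOf_true]
      exact MeasurableSet.univ
    · simp only [ne_eq, hl, not_false_eq_true, true_imp_iff]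
      exact measurableSet_le measurable_const (measurable_const.mul (hn l))
  have h3 : MeasurableSet {a | T * |(conj (cexp ((th a : ℂ) * I)) * H a 2).re| ≤ Q * Rx T} :=
    measurableSet_le (measurable_const.mul
      (meas_re ((meas_conj (meas_exp hth)).mul (hH 2))).abs) measurable_const
  have h4 : MeasurableSet {a | ∀ l m : Fin 3, l ≠ m →
      1 ≤ Q * |(conj (wG T (H a) ep (th a) l) * wG T (H a) ep (th a) m).im|} := by
    rw [Set.setOf_forall]
    refine MeasurableSet.iInter fun l => ?_
    rw [Set.setOf_forall]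
    refine MeasurableSet.iInter fun m => ?_
    by_cases hl : l = m
    · simp only [hl, ne_eq, not_true_eq_false, false_imp_iff, Set.setOf_true]
      exact MeasurableSet.univ
    · simp only [ne_eq, hl, not_false_eq_true, true_imp_iff]
      exact measurableSet_le measurable_const (measurable_const.mul
        (meas_im ((meas_conj (meas_wG hH T ep hth l)).mul (meas_wG hH T ep hth m))).abs)
  exact h1.inter (h2.inter (h3.inter h4))

end

theorem mea : MEAStmt := by
  intro T Q V k0 del s h k
  have hH : ∀ l, Measurable fun a : (ℝ × ℝ × ℝ) × ℝ => hG a.1 h l := fun l =>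
    meas_gA measurable_fst _
  have hK : ∀ l, Measurable fun a : (ℝ × ℝ × ℝ) × ℝ => kG a.1 k l := fun l =>
    meas_kA measurable_fst _
  have hth : Measurable fun a : (ℝ × ℝ × ℝ) × ℝ => a.2 := measurable_snd
  unfold Tgt
  have h1 : MeasurableSet {a : (ℝ × ℝ × ℝ) × ℝ | a.1 ∈ KM Q} :=
    measurable_fst (measurableSet_KM Q)
  have h2 : MeasurableSet {a : (ℝ × ℝ × ℝ) × ℝ | a.2 ∈ Set.Ioc (-Real.pi) Real.pi} :=
    measurable_snd measurableSet_Ioc
  have h3 : MeasurableSet {a : (ℝ × ℝ × ℝ) × ℝ |
      ∀ l, V l ≤ Q * ‖hG a.1 h l‖ ∧ ‖hG a.1 h l‖ ≤ Q * V l} := by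
    rw [Set.setOf_forall]
    exact MeasurableSet.iInter fun l =>
      (measurableSet_le measurable_const (measurable_const.mul (hH l).norm)).inter
        (measurableSet_le (hH l).norm measurable_const)
  have h4 : MeasurableSet {a : (ℝ × ℝ × ℝ) × ℝ | Gd Q T (hG a.1 h) (sg s) a.2} :=
    meas_Gd hH T (sg s) hth Q
  have h5 : MeasurableSet {a : (ℝ × ℝ × ℝ) × ℝ | ‖k‖ ≤ Q * k0} := MeasurableSet.const _
  have h6 : MeasurableSet {a : (ℝ × ℝ × ℝ) × ℝ |
      BD T Q (Q / k0) (fun l => Q * V l) (hG a.1 h) (sg s) a.2 (kG a.1 k)} :=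
    meas_BD hH T (sg s) hth hK _ _ _
  have h7 : MeasurableSet {a : (ℝ × ℝ × ℝ) × ℝ |
      |kph T (hG a.1 h) (sg s) a.2 (kG a.1 k)| ≤ Q * (del * k0 * V 0 ^ 2)} :=
    measurableSet_le (meas_kph hH T (sg s) hth hK).abs measurable_const
  exact h1.inter (h2.inter (h3.inter (h4.inter (h5.inter (h6.inter h7)))))

end Pool.Agent.F5H.BC.H33
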